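import Pool.Agent.Q276.DA.Stm

/-!
# Project DA of helper276: the statement `S_SER`
-/

set_option autoImplicit false

namespace Pool.Agent.Q204.DA

open Complex Pool.Agent.Q276.DA

theorem sg_le (k : ℕ) : sg k ≤ k ^ 2 := by
  unfold sg
  calc ∑ d ∈ k.divisors, d ≤ ∑ d ∈ k.divisors, k :=
        Finset.sum_le_sum fun d hd => Nat.divisor_le hd
    _ = k.divisors.card * k := by rw [Finset.sum_const, smul_eq_mul]
    _ ≤ k * k := Nat.mul_le_mul_right k (Nat.card_divisors_le_self k)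
    _ = k ^ 2 := by ring

theorem norm_cexp_neg (k : ℕ) (z : ℂ) :
    ‖cexp (-((k : ℂ) + 1) * z)‖ = Real.exp (-(((k : ℝ) + 1) * z.re)) := by
  rw [Complex.norm_exp]
  congr 1
  have h : -((k : ℂ) + 1) * z = ((-((k : ℝ) + 1) : ℝ) : ℂ) * z := by
    push_cast
    ring
  rw [h, Complex.re_ofReal_mul]
  ring

theorem summable_bound (m : ℕ) {δ : ℝ} (hδ : 0 < δ) :
    Summable fun k : ℕ => ((k : ℝ) + 1) ^ m * Real.exp (-(((k : ℝ) + 1) * δ)) := by
  have h := (summable_nat_add_iff 1).2 (Real.summable_pow_mul_exp_neg_nat_mul m hδ)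
  refine h.congr fun k => ?_
  push_cast
  congr 2
  ring

/-- A series with coefficients of polynomial growth is summable. -/
theorem summable_series (c : ℕ → ℂ) (m : ℕ) (hc : ∀ k, ‖c k‖ ≤ ((k : ℝ) + 1) ^ m) {z : ℂ}
    (hz : 0 < z.re) : Summable fun k : ℕ => c k * cexp (-((k : ℂ) + 1) * z) := by
  refine Summable.of_norm_bounded (summable_bound m hz) fun k => ?_
  rw [norm_mul, norm_cexp_neg]
  exact mul_le_mul_of_nonneg_right (hc k) (Real.exp_pos _).le

/-- The derivative of a series with coefficients of polynomial growth. -/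
theorem hasDerivAt_series (c : ℕ → ℂ) (m : ℕ) (hc : ∀ k, ‖c k‖ ≤ ((k : ℝ) + 1) ^ m) {z : ℂ}
    (hz : 0 < z.re) : HasDerivAt (fun z => ∑' k : ℕ, c k * cexp (-((k : ℂ) + 1) * z))
      (∑' k : ℕ, -(((k : ℂ) + 1) * c k * cexp (-((k : ℂ) + 1) * z))) z := by
  have hδ : 0 < z.re / 2 := by linarith
  refine hasDerivAt_tsum_of_isPreconnected (t := {y : ℂ | z.re / 2 < y.re})
    (g := fun k y => c k * cexp (-((k : ℂ) + 1) * y))
    (g' := fun k y => -(((k : ℂ) + 1) * c k * cexp (-((k : ℂ) + 1) * y))) (y₀ := z)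
    (summable_bound (m + 1) hδ) (isOpen_lt continuous_const Complex.continuous_re)
    (convex_halfSpace_re_gt _).isPreconnected ?_ ?_ ?_ (summable_series c m hc hz) ?_
  · intro k y _
    have h1 : HasDerivAt (fun y : ℂ => -((k : ℂ) + 1) * y) (-((k : ℂ) + 1)) y := by
      simpa using (hasDerivAt_id y).const_mul (-((k : ℂ) + 1))
    refine ((h1.cexp).const_mul (c k)).congr_deriv ?_
    ring
  · intro k y hy
    rw [norm_neg, norm_mul, norm_mul, norm_cexp_neg]
    have h1 : ‖((k : ℂ) + 1)‖ = (k : ℝ) + 1 := by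
      have : ((k : ℂ) + 1) = ((k + 1 : ℕ) : ℂ) := by push_cast; ring
      rw [this, Complex.norm_natCast]
      push_cast
      ring
    rw [h1]
    have hy' : z.re / 2 ≤ y.re := le_of_lt hy
    calc ((k : ℝ) + 1) * ‖c k‖ * Real.exp (-(((k : ℝ) + 1) * y.re))
        ≤ ((k : ℝ) + 1) * ((k : ℝ) + 1) ^ m * Real.exp (-(((k : ℝ) + 1) * (z.re / 2))) := by
          have := hc k
          gcongr
      _ = ((k : ℝ) + 1) ^ (m + 1) * Real.exp (-(((k : ℝ) + 1) * (z.re / 2))) := by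
          ring
  · change z.re / 2 < z.re
    linarith
  · change z.re / 2 < z.re
    linarith

theorem norm_sg (k : ℕ) : ‖(sg (k + 1) : ℂ)‖ ≤ ((k : ℝ) + 1) ^ 2 := by
  rw [Complex.norm_natCast]
  exact_mod_cast sg_le (k + 1)

theorem norm_succ (k : ℕ) : ‖((k : ℂ) + 1)‖ = (k : ℝ) + 1 := by
  have : ((k : ℂ) + 1) = ((k + 1 : ℕ) : ℂ) := by push_cast; ring
  rw [this, Complex.norm_natCast]
  push_cast
  ring

theorem succ_ne (k : ℕ) : ((k : ℂ) + 1) ≠ 0 := by exact_mod_cast Nat.succ_ne_zero k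

theorem norm_sg_div (k : ℕ) : ‖(sg (k + 1) : ℂ) / ((k : ℂ) + 1)‖ ≤ ((k : ℝ) + 1) ^ 2 := by
  rw [norm_div, norm_succ]
  have h : (0 : ℝ) ≤ k := Nat.cast_nonneg k
  exact (div_le_self (norm_nonneg _) (by linarith)).trans (norm_sg k)

/-- The derivative of `E`. -/
theorem hasDerivAt_E {z : ℂ} (hz : 0 < z.re) : HasDerivAt E
    (∑' k : ℕ, -(((k : ℂ) + 1) * (sg (k + 1) : ℂ) * cexp (-((k : ℂ) + 1) * z))) z :=
  hasDerivAt_series (fun k => (sg (k + 1) : ℂ)) 2 norm_sg hz

theorem t_SER : S_SER := by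
  refine ⟨fun z hz => ⟨summable_series _ 2 norm_sg hz, summable_series _ 2 norm_sg_div hz, ?_,
    (hasDerivAt_E hz).differentiableAt⟩, fun z => ⟨?_, ?_⟩, fun z => ⟨?_, ?_⟩⟩
  · have h := hasDerivAt_series (fun k => (sg (k + 1) : ℂ) / ((k : ℂ) + 1)) 2 norm_sg_div hz
    refine h.congr_deriv ?_
    rw [tsum_neg]
    congr 1
    unfold E
    refine tsum_congr fun k => ?_
    rw [mul_div_cancel₀ _ (succ_ne k)]
  · unfold E
    rw [Complex.conj_tsum]
    refine tsum_congr fun k => ?_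
    rw [map_mul, ← Complex.exp_conj]
    simp
  · unfold G
    rw [Complex.conj_tsum]
    refine tsum_congr fun k => ?_
    rw [map_mul, ← Complex.exp_conj]
    simp
  · unfold E
    refine tsum_congr fun k => ?_
    congr 1
    have h : -((k : ℂ) + 1) * (z + 2 * Real.pi * I) =
        -((k : ℂ) + 1) * z + ((-((k : ℤ) + 1) : ℤ) : ℂ) * (2 * Real.pi * I) := by
      push_cast
      ring
    rw [h, Complex.exp_add, Complex.exp_int_mul_two_pi_mul_I, mul_one]
  · unfold G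
    refine tsum_congr fun k => ?_
    congr 1
    have h : -((k : ℂ) + 1) * (z + 2 * Real.pi * I) =
        -((k : ℂ) + 1) * z + ((-((k : ℤ) + 1) : ℤ) : ℂ) * (2 * Real.pi * I) := by
      push_cast
      ring
    rw [h, Complex.exp_add, Complex.exp_int_mul_two_pi_mul_I, mul_one]

end Pool.Agent.Q204.DA
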