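import Pool.Agent.Q276.DA.Stm
import Pool.Agent.Q204.DA.SER

/-!
# Project DA of helper276: the statement `S_BND`
-/

set_option autoImplicit false

namespace Pool.Agent.Q204.DA

open Complex Pool.Agent.Q276.DA

/-- A bound for a series by five terms and a geometric tail. -/
theorem norm_tsum_le (f : ℕ → ℂ) (s : ℕ → ℝ) (K r r0 : ℝ) (hr0 : 0 ≤ r0) (hr1 : r0 < 1 / 2)
    (hr : 0 ≤ r) (hs : ∀ k, s (k + 5) ≤ K * 2 ^ k) (hf : ∀ k, ‖f k‖ ≤ r * (s k * r0 ^ k)) :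
    ‖∑' k, f k‖ ≤ r * (s 0 + s 1 * r0 + s 2 * r0 ^ 2 + s 3 * r0 ^ 3 + s 4 * r0 ^ 4 +
      K * r0 ^ 5 / (1 - 2 * r0)) := by
  let g : ℕ → ℝ := fun k => if k < 5 then s k * r0 ^ k else K * 2 ^ (k - 5) * r0 ^ k
  have hg : HasSum (fun k => g (k + 5)) (K * r0 ^ 5 / (1 - 2 * r0)) := by
    have h1 := (hasSum_geometric_of_lt_one (show 0 ≤ 2 * r0 by linarith)
      (show 2 * r0 < 1 by linarith)).mul_left (K * r0 ^ 5)
    rw [← div_eq_mul_inv] at h1
    refine h1.congr_fun ?_ |> fun h => h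
    intro k
    have h2 : ¬ k + 5 < 5 := by omega
    simp only [g, h2, if_false, Nat.add_sub_cancel]
    rw [mul_pow, pow_add]
    ring
  have hg' : HasSum g (s 0 + s 1 * r0 + s 2 * r0 ^ 2 + s 3 * r0 ^ 3 + s 4 * r0 ^ 4 +
      K * r0 ^ 5 / (1 - 2 * r0)) := by
    rw [← hasSum_nat_add_iff' 5]
    have h1 : ∑ i ∈ Finset.range 5, g i =
        s 0 + s 1 * r0 + s 2 * r0 ^ 2 + s 3 * r0 ^ 3 + s 4 * r0 ^ 4 := by
      simp [Finset.sum_range_succ, g]
    rw [h1, add_sub_cancel_left]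
    exact hg
  refine tsum_of_norm_bounded (hg'.mul_left r) fun k => ?_
  refine (hf k).trans (mul_le_mul_of_nonneg_left ?_ hr)
  by_cases hk : k < 5
  · simp only [g, hk, if_true]
    exact le_rfl
  · simp only [g, hk, if_false]
    obtain ⟨j, rfl⟩ : ∃ j, k = j + 5 := ⟨k - 5, by omega⟩
    rw [Nat.add_sub_cancel]
    exact mul_le_mul_of_nonneg_right (hs j) (by positivity)

theorem pow2_bound (k : ℕ) : ((k : ℝ) + 6) ^ 2 ≤ 36 * 2 ^ k := by
  have h : (k + 6) ^ 2 ≤ 36 * 2 ^ k := by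
    induction k with
    | zero => norm_num
    | succ k ih =>
      have h1 : 2 * (k + 6) ^ 2 = (k + 1 + 6) ^ 2 + (k ^ 2 + 10 * k + 23) := by ring
      calc (k + 1 + 6) ^ 2 ≤ 2 * (k + 6) ^ 2 := by rw [h1]; exact Nat.le_add_right _ _
        _ ≤ 2 * (36 * 2 ^ k) := Nat.mul_le_mul_left 2 ih
        _ = 36 * 2 ^ (k + 1) := by ring
  exact_mod_cast h

theorem pow3_bound (k : ℕ) : ((k : ℝ) + 6) ^ 3 ≤ 216 * 2 ^ k := by
  have h : (k + 6) ^ 3 ≤ 216 * 2 ^ k := by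
    induction k with
    | zero => norm_num
    | succ k ih =>
      calc (k + 1 + 6) ^ 3 ≤ 2 * (k + 6) ^ 3 := by
            nlinarith [Nat.zero_le k, Nat.zero_le (k ^ 3), Nat.zero_le (k ^ 2)]
        _ ≤ 2 * (216 * 2 ^ k) := Nat.mul_le_mul_left 2 ih
        _ = 216 * 2 ^ (k + 1) := by ring
  exact_mod_cast h

theorem sg1 : sg 1 = 1 := by decide
theorem sg2 : sg 2 = 3 := by decide
theorem sg3 : sg 3 = 4 := by decide
theorem sg4 : sg 4 = 7 := by decide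
theorem sg5 : sg 5 = 6 := by decide

theorem exp_pow_le (k : ℕ) {x r0 : ℝ} (h : Real.exp (-x) ≤ r0) :
    Real.exp (-(((k : ℝ) + 1) * x)) ≤ Real.exp (-x) * r0 ^ k := by
  have h1 : Real.exp (-(((k : ℝ) + 1) * x)) = Real.exp (-x) * Real.exp (-x) ^ k := by
    rw [← Real.exp_nat_mul, ← Real.exp_add]
    congr 1
    ring
  rw [h1]
  exact mul_le_mul_of_nonneg_left (pow_le_pow_left₀ (Real.exp_pos _).le h k) (Real.exp_pos _).le

theorem sg_real (k : ℕ) : (sg (k + 1) : ℝ) ≤ ((k : ℝ) + 1) ^ 2 := by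
  exact_mod_cast sg_le (k + 1)

theorem norm_E_le {z : ℂ} {r0 : ℝ} (hr0 : 0 ≤ r0) (hr1 : r0 < 1 / 2)
    (h : Real.exp (-z.re) ≤ r0) :
    ‖E z‖ ≤ Real.exp (-z.re) * (1 + 3 * r0 + 4 * r0 ^ 2 + 7 * r0 ^ 3 + 6 * r0 ^ 4 +
      36 * r0 ^ 5 / (1 - 2 * r0)) := by
  have h1 := norm_tsum_le (fun k => (sg (k + 1) : ℂ) * cexp (-((k : ℂ) + 1) * z))
    (fun k => (sg (k + 1) : ℝ)) 36 (Real.exp (-z.re)) r0 hr0 hr1 (Real.exp_pos _).le ?_ ?_
  · simp only [zero_add, Nat.reduceAdd, sg1, sg2, sg3, sg4, sg5] at h1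
    push_cast at h1
    exact h1
  · intro k
    refine le_trans (sg_real (k + 5)) (le_trans (le_of_eq ?_) (pow2_bound k))
    push_cast
    ring
  · intro k
    rw [norm_mul, norm_cexp_neg, Complex.norm_natCast]
    calc (sg (k + 1) : ℝ) * Real.exp (-(((k : ℝ) + 1) * z.re))
        ≤ (sg (k + 1) : ℝ) * (Real.exp (-z.re) * r0 ^ k) :=
          mul_le_mul_of_nonneg_left (exp_pow_le k h) (Nat.cast_nonneg _)
      _ = Real.exp (-z.re) * ((sg (k + 1) : ℝ) * r0 ^ k) := by ring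

theorem norm_deriv_E_le {z : ℂ} {r0 : ℝ} (hz : 0 < z.re) (hr0 : 0 ≤ r0) (hr1 : r0 < 1 / 2)
    (h : Real.exp (-z.re) ≤ r0) :
    ‖deriv E z‖ ≤ Real.exp (-z.re) * (1 + 6 * r0 + 12 * r0 ^ 2 + 28 * r0 ^ 3 + 30 * r0 ^ 4 +
      216 * r0 ^ 5 / (1 - 2 * r0)) := by
  rw [(hasDerivAt_E hz).deriv]
  have h1 := norm_tsum_le
    (fun k => -(((k : ℂ) + 1) * (sg (k + 1) : ℂ) * cexp (-((k : ℂ) + 1) * z)))
    (fun k => ((k : ℝ) + 1) * (sg (k + 1) : ℝ)) 216 (Real.exp (-z.re)) r0 hr0 hr1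
    (Real.exp_pos _).le ?_ ?_
  · simp only [zero_add, Nat.reduceAdd, sg1, sg2, sg3, sg4, sg5] at h1
    refine h1.trans (le_of_eq ?_)
    push_cast
    ring
  · intro k
    have h2 := sg_real (k + 5)
    calc (((k + 5 : ℕ) : ℝ) + 1) * (sg (k + 5 + 1) : ℝ)
        ≤ (((k + 5 : ℕ) : ℝ) + 1) * ((((k + 5 : ℕ) : ℝ) + 1) ^ 2) :=
          mul_le_mul_of_nonneg_left h2 (by positivity)
      _ = ((k : ℝ) + 6) ^ 3 := by
          push_cast
          ring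
      _ ≤ 216 * 2 ^ k := pow3_bound k
  · intro k
    rw [norm_neg, norm_mul, norm_mul, norm_cexp_neg, Complex.norm_natCast, norm_succ]
    have h2 : 0 ≤ ((k : ℝ) + 1) * (sg (k + 1) : ℝ) := by positivity
    calc ((k : ℝ) + 1) * (sg (k + 1) : ℝ) * Real.exp (-(((k : ℝ) + 1) * z.re))
        ≤ ((k : ℝ) + 1) * (sg (k + 1) : ℝ) * (Real.exp (-z.re) * r0 ^ k) :=
          mul_le_mul_of_nonneg_left (exp_pow_le k h) h2
      _ = Real.exp (-z.re) * (((k : ℝ) + 1) * (sg (k + 1) : ℝ) * r0 ^ k) := by ring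

theorem norm_G_le {z : ℂ} {r0 : ℝ} (hr0 : 0 ≤ r0) (hr1 : r0 < 1 / 2)
    (h : Real.exp (-z.re) ≤ r0) :
    ‖G z‖ ≤ Real.exp (-z.re) * (1 + 3 / 2 * r0 + 4 / 3 * r0 ^ 2 + 7 / 4 * r0 ^ 3 +
      6 / 5 * r0 ^ 4 + 6 * r0 ^ 5 / (1 - 2 * r0)) := by
  have h1 := norm_tsum_le (fun k => (sg (k + 1) : ℂ) / ((k : ℂ) + 1) * cexp (-((k : ℂ) + 1) * z))
    (fun k => (sg (k + 1) : ℝ) / ((k : ℝ) + 1)) 6 (Real.exp (-z.re)) r0 hr0 hr1
    (Real.exp_pos _).le ?_ ?_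
  · simp only [zero_add, Nat.reduceAdd, sg1, sg2, sg3, sg4, sg5] at h1
    refine h1.trans (le_of_eq ?_)
    push_cast
    ring
  · intro k
    have h2 := sg_real (k + 5)
    have h3 : (0 : ℝ) < ((k + 5 : ℕ) : ℝ) + 1 := by positivity
    rw [div_le_iff₀ h3]
    refine h2.trans ?_
    rw [pow_two]
    apply mul_le_mul_of_nonneg_right _ h3.le
    have h4 : k + 6 ≤ 6 * 2 ^ k := by
      have : k < 2 ^ k := Nat.lt_two_pow_self
      omega
    have h5 : ((k + 6 : ℕ) : ℝ) ≤ 6 * 2 ^ k := by exact_mod_cast h4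
    push_cast at h5 ⊢
    linarith
  · intro k
    rw [norm_mul, norm_div, norm_cexp_neg, Complex.norm_natCast, norm_succ]
    have h2 : 0 ≤ (sg (k + 1) : ℝ) / ((k : ℝ) + 1) := by positivity
    calc (sg (k + 1) : ℝ) / ((k : ℝ) + 1) * Real.exp (-(((k : ℝ) + 1) * z.re))
        ≤ (sg (k + 1) : ℝ) / ((k : ℝ) + 1) * (Real.exp (-z.re) * r0 ^ k) :=
          mul_le_mul_of_nonneg_left (exp_pow_le k h) h2
      _ = Real.exp (-z.re) * ((sg (k + 1) : ℝ) / ((k : ℝ) + 1) * r0 ^ k) := by ring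

theorem exp_neg_le {x x0 M : ℝ} (hx : x0 ≤ x) (hM : 0 < M) (h : M ≤ Real.exp x0) :
    Real.exp (-x) ≤ 1 / M := by
  rw [Real.exp_neg, inv_eq_one_div]
  exact one_div_le_one_div_of_le hM (h.trans (Real.exp_le_exp.2 hx))

theorem exp6 : (400 : ℝ) ≤ Real.exp 6 := by
  refine le_trans ?_ (Real.sum_le_exp_of_nonneg (by norm_num) 16)
  norm_num [Finset.sum_range_succ, Nat.factorial]

theorem exp375 : (42 : ℝ) ≤ Real.exp (15 / 4) := by
  refine le_trans ?_ (Real.sum_le_exp_of_nonneg (by norm_num) 12)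
  norm_num [Finset.sum_range_succ, Nat.factorial]

theorem exp27 : (29 / 2 : ℝ) ≤ Real.exp (27 / 10) := by
  refine le_trans ?_ (Real.sum_le_exp_of_nonneg (by norm_num) 10)
  norm_num [Finset.sum_range_succ, Nat.factorial]

theorem exp24 : (11 : ℝ) ≤ Real.exp (12 / 5) := by
  refine le_trans ?_ (Real.sum_le_exp_of_nonneg (by norm_num) 11)
  norm_num [Finset.sum_range_succ, Nat.factorial]

theorem exp29 : (18 : ℝ) ≤ Real.exp (29 / 10) := by
  refine le_trans ?_ (Real.sum_le_exp_of_nonneg (by norm_num) 11)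
  norm_num [Finset.sum_range_succ, Nat.factorial]

theorem t_BND : S_BND := by
  intro z
  refine ⟨fun hz => ⟨?_, ?_⟩, fun hz => ?_, fun hz => ?_, fun hz => ?_, fun hz => ?_⟩
  · refine (norm_E_le (r0 := 1 / 400) (by norm_num) (by norm_num)
      (exp_neg_le hz (by norm_num) exp6)).trans ?_
    rw [mul_comm]
    apply mul_le_mul_of_nonneg_right _ (Real.exp_pos _).le
    norm_num
  · refine (norm_deriv_E_le (r0 := 1 / 400) (by linarith) (by norm_num) (by norm_num)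
      (exp_neg_le hz (by norm_num) exp6)).trans ?_
    rw [mul_comm]
    apply mul_le_mul_of_nonneg_right _ (Real.exp_pos _).le
    norm_num
  · refine (norm_E_le (r0 := 1 / 42) (by norm_num) (by norm_num)
      (exp_neg_le hz (by norm_num) exp375)).trans ?_
    rw [mul_comm]
    apply mul_le_mul_of_nonneg_right _ (Real.exp_pos _).le
    norm_num
  · refine (norm_E_le (r0 := 1 / (29 / 2)) (by norm_num) (by norm_num)
      (exp_neg_le hz (by norm_num) exp27)).trans ?_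
    rw [mul_comm]
    apply mul_le_mul_of_nonneg_right _ (Real.exp_pos _).le
    norm_num
  · refine (norm_G_le (r0 := 1 / 11) (by norm_num) (by norm_num)
      (exp_neg_le hz (by norm_num) exp24)).trans ?_
    rw [mul_comm]
    apply mul_le_mul_of_nonneg_right _ (Real.exp_pos _).le
    norm_num
  · have h18 := exp_neg_le hz (by norm_num) exp29
    refine lt_of_le_of_lt (norm_E_le (r0 := 1 / 18) (by norm_num) (by norm_num) h18) ?_
    calc Real.exp (-z.re) * (1 + 3 * (1 / 18) + 4 * (1 / 18) ^ 2 + 7 * (1 / 18) ^ 3 +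
          6 * (1 / 18) ^ 4 + 36 * (1 / 18) ^ 5 / (1 - 2 * (1 / 18)))
        ≤ 1 / 18 * (1 + 3 * (1 / 18) + 4 * (1 / 18) ^ 2 + 7 * (1 / 18) ^ 3 +
          6 * (1 / 18) ^ 4 + 36 * (1 / 18) ^ 5 / (1 - 2 * (1 / 18))) := by
          apply mul_le_mul_of_nonneg_right h18
          norm_num
      _ < 1 / 15 := by norm_num

end Pool.Agent.Q204.DA
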