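import Pool.Agent.Q276.DA.Stm

/-!
# Project DA of helper276: the statement `S_MODG`
-/

set_option autoImplicit false

namespace Pool.Agent.Q204.DA

open Complex Pool.Agent.Q276.DA

theorem t_MODG (hS : S_SER) (hM : S_MODE) : S_MODG := by
  obtain ⟨h1, h2, -⟩ := hS
  have hreal : ∀ x : ℝ, (G (x : ℂ)).im = 0 := by
    intro x
    have h := (h2 (x : ℂ)).2
    rw [Complex.conj_ofReal] at h
    exact Complex.conj_eq_iff_im.1 h.symm
  have hpos : ∀ z : ℂ, 0 < z.re → 0 < (4 * (Real.pi : ℂ) ^ 2 / z).re := by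
    intro z hz
    have hc : 4 * (Real.pi : ℂ) ^ 2 / z = ((4 * Real.pi ^ 2 : ℝ) : ℂ) * z⁻¹ := by
      push_cast
      rw [div_eq_mul_inv]
    rw [hc, Complex.re_ofReal_mul, Complex.inv_re]
    have hz0 : z ≠ 0 := by
      rintro rfl
      simp at hz
    have : 0 < Complex.normSq z := Complex.normSq_pos.2 hz0
    positivity
  let f : ℂ → ℂ := fun z => G z - Real.pi ^ 2 / (6 * z) - 1 / 2 * Complex.log z + z / 24 -
    G (4 * Real.pi ^ 2 / z)
  have hder : ∀ z : ℂ, 0 < z.re → HasDerivAt f 0 z := by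
    intro z hz
    have hz0 : z ≠ 0 := by
      rintro rfl
      simp at hz
    have hsl : z ∈ Complex.slitPlane := Or.inl hz
    have e1 := (h1 z hz).2.2.1
    have e2 : HasDerivAt (fun z : ℂ => (Real.pi : ℂ) ^ 2 / (6 * z))
        (-((Real.pi : ℂ) ^ 2 * 6) / (6 * z) ^ 2) z := by
      have h3 : HasDerivAt (fun z : ℂ => 6 * z) 6 z := by
        simpa using (hasDerivAt_id z).const_mul (6 : ℂ)
      have h4 := (hasDerivAt_const z ((Real.pi : ℂ) ^ 2)).div h3 (mul_ne_zero (by norm_num) hz0)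
      refine h4.congr_deriv ?_
      ring
    have e3 := (Complex.hasDerivAt_log hsl).const_mul (1 / 2 : ℂ)
    have e4 : HasDerivAt (fun z : ℂ => z / 24) (1 / 24) z := (hasDerivAt_id z).div_const 24
    have e5 : HasDerivAt (fun z : ℂ => 4 * (Real.pi : ℂ) ^ 2 / z)
        (-(4 * (Real.pi : ℂ) ^ 2) / z ^ 2) z := by
      have h4 := (hasDerivAt_const z (4 * (Real.pi : ℂ) ^ 2)).div (hasDerivAt_id z) hz0
      refine h4.congr_deriv ?_
      simp
    have e6 := ((h1 _ (hpos z hz)).2.2.1).comp z e5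
    have e7 := (((e1.sub e2).sub e3).add e4).sub e6
    refine e7.congr_deriv ?_
    rw [hM z hz]
    field_simp
    ring
  have hconst : ∀ z : ℂ, 0 < z.re → f z = f 1 := by
    intro z hz
    refine IsOpen.is_const_of_deriv_eq_zero (s := {z : ℂ | 0 < z.re})
      (isOpen_lt continuous_const Complex.continuous_re)
      (convex_halfSpace_re_gt 0).isPreconnected (fun y hy =>
        (hder y hy).differentiableAt.differentiableWithinAt) (fun y hy => (hder y hy).deriv) hz ?_
    change (0 : ℝ) < (1 : ℂ).re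
    simp
  have hf1 : (f 1).im = 0 := by
    have h3 : f 1 = G ((1 : ℝ) : ℂ) - ((Real.pi ^ 2 / 6 : ℝ) : ℂ) + ((1 / 24 : ℝ) : ℂ) -
        G ((4 * Real.pi ^ 2 : ℝ) : ℂ) := by
      simp only [f]
      rw [Complex.log_one]
      push_cast
      ring_nf
    rw [h3, Complex.sub_im, Complex.add_im, Complex.sub_im, hreal, hreal, Complex.ofReal_im,
      Complex.ofReal_im]
    ring
  intro z hz
  have h3 := congrArg Complex.im (hconst z hz)
  rw [hf1] at h3
  have h4 : (f z).im = (G z).im - (Real.pi ^ 2 / (6 * z)).im - arg z / 2 + z.im / 24 -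
      (G (4 * Real.pi ^ 2 / z)).im := by
    simp only [f]
    rw [Complex.sub_im, Complex.add_im, Complex.sub_im, Complex.sub_im]
    have h5 : (1 / 2 * Complex.log z).im = arg z / 2 := by
      have : (1 / 2 : ℂ) * Complex.log z = ((1 / 2 : ℝ) : ℂ) * Complex.log z := by
        push_cast
        ring
      rw [this, Complex.im_ofReal_mul, Complex.log_im]
      ring
    have h6 : (z / 24).im = z.im / 24 := by
      have : z / 24 = z / ((24 : ℝ) : ℂ) := by push_cast; ring
      rw [this, Complex.div_ofReal_im]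
    rw [h5, h6]
  rw [h4] at h3
  linarith

end Pool.Agent.Q204.DA
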